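import Pool.Agent.Lib.MP_3bfe94_nt.Final

set_option autoImplicit false

namespace Pool.Agent.Results.MP_3bfe94_nt.FiveSixths

/-- The value `[0; b₁, …, b_l] = 1 / (b₁ + 1 / (b₂ + ⋯ + 1 / b_l))`. -/
def cfVal : List ℕ → ℚ
  | [] => 0
  | b :: bs => 1 / ((b : ℚ) + cfVal bs)

/-- `bs` is a regular continued fraction expansion `x = [0; b₁, …, b_l]`, all `b_i ≥ 1`. -/
def IsCF (x : ℚ) (bs : List ℕ) : Prop := (∀ b ∈ bs, 0 < b) ∧ cfVal bs = x

/-- The coset `v · U` of a subgroup `U` of the unit group modulo `p`. -/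
def coset {p : ℕ} (v : (ZMod p)ˣ) (U : Subgroup (ZMod p)ˣ) : Set (ZMod p)ˣ :=
  {a | ∃ u ∈ U, a = v * u}

/-- The exponent `θ` is admissible. -/
def Admissible (θ : ℝ) : Prop :=
  ∃ C₁ C₂ A : ℝ, 0 < C₁ ∧ 0 < C₂ ∧ 0 < A ∧
    ∀ p : ℕ, p.Prime → 3 ≤ p → ∀ (U : Subgroup (ZMod p)ˣ) (v : (ZMod p)ˣ),
      C₁ * (p : ℝ) ^ θ * Real.log p ^ A ≤ ((coset v U).ncard : ℝ) →
      ∃ a ∈ coset v U,
        (∃ bs, IsCF ((ZMod.val (a : ZMod p) : ℚ) / (p : ℚ)) bs) ∧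
        ∀ bs, IsCF ((ZMod.val (a : ZMod p) : ℚ) / (p : ℚ)) bs →
          (bs.sum : ℝ) ≤ C₂ * Real.log p * Real.log (Real.log p)

open Pool.Agent.Lib.MP_3bfe94_nt

lemma cfVal_eq (bs : List ℕ) : cfVal bs = cfv bs := by
  induction bs with
  | nil => rfl
  | cons b bs ih => rw [cfVal, cfv, ih]

theorem result : Admissible (5 / 6) := by
  classical
  refine ⟨10 ^ 8, 10 ^ 6, 4, by norm_num, by norm_num, by norm_num, fun p hp hp3 U v h => ?_⟩
  have : Fact p.Prime := ⟨hp⟩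
  set Uf : Finset (ZMod p) := (Finset.univ.filter fun u : (ZMod p)ˣ => u ∈ U).image Units.val
    with hUf
  have hmem : ∀ x, x ∈ Uf ↔ ∃ u ∈ U, (u : ZMod p) = x := by
    intro x; simp [hUf]
  have hU : IsSub Uf := by
    refine ⟨(hmem _).2 ⟨1, U.one_mem, rfl⟩, fun h0 => ?_, fun x hx y hy => ?_, fun x hx => ?_⟩
    · obtain ⟨u, -, hu⟩ := (hmem _).1 h0
      exact u.ne_zero hu
    · obtain ⟨u, hu, rfl⟩ := (hmem _).1 hx
      obtain ⟨w, hw, rfl⟩ := (hmem _).1 hy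
      exact (hmem _).2 ⟨u * w, U.mul_mem hu hw, rfl⟩
    · obtain ⟨u, hu, rfl⟩ := (hmem _).1 hx
      exact (hmem _).2 ⟨u⁻¹, U.inv_mem hu, Units.val_inv_eq_inv_val u⟩
  have hcard : (coset v U).ncard = Uf.card := by
    have e : coset v U =
        (fun u => v * u) '' (Finset.univ.filter fun u : (ZMod p)ˣ => u ∈ U : Finset _) := by
      ext a
      simp only [coset, Set.mem_ofPred_eq, Set.mem_image, Finset.coe_filter, Finset.mem_univ,
        true_and]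
      exact exists_congr fun u => and_congr_right fun _ => eq_comm
    rw [e, Set.ncard_image_of_injective _ (mul_right_injective v), Set.ncard_coe_finset, hUf,
      Finset.card_image_of_injective _ Units.val_injective]
  rw [hcard, show (4 : ℝ) = ((4 : ℕ) : ℝ) by norm_num, Real.rpow_natCast] at h
  obtain ⟨x, hx, hs⟩ := main hp3 hU v v.ne_zero h
  obtain ⟨u, hu, rfl⟩ := (hmem _).1 hx
  refine ⟨v * u, ⟨u, hu, rfl⟩, ⟨qs ((v : ZMod p) * u).val p, ?_, ?_⟩, fun bs hbs => ?_⟩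
  · exact qs_mem_pos _ _ (ZMod.val_lt _).le
  · rw [cfVal_eq, cfv_qs, Units.val_mul]
  · rw [sum_unique bs hbs.1 _ p hp.pos (by rw [← cfVal_eq]; exact hbs.2)]
    exact hs

end Pool.Agent.Results.MP_3bfe94_nt.FiveSixths
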